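import Pool.Agent.L5helper25.AB.Lgt
import Pool.Agent.L5helper25.AB.Hyp

/-!
# MP_dc0411_ag, Q1 for affine varieties: conditions (1) and (2) imply condition (3) in bounded degree

The starting files `PointedMaps` and `EveryDimension` give smooth quasi-affine varieties `X` which are
Brody hyperbolic, while infinitely many morphisms of bounded degree from a pointed curve `(C, c)` to
`X` map `c` to one point `x`. The theorem below says that this cannot happen for affine varieties
(closed subschemes of affine space, singular or reducible ones are allowed), and gives finiteness
which is uniform in the curve, of any genus, and in the points `c` and `x`.

Let `X` be an affine variety over an algebraically closed field `K` of characteristic zero. The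
curves `C` below are smooth, over any algebraically closed field containing `K`.

**(A)** If all morphisms from the affine line to `X` are constant (`NoLine`), then for all `s` and
`d` there is a number `n` such that for all curves `C` with at most `s` missing points, and of any
genus, all `c` and `x`, there are at most `n` morphisms `f : C → X` with `f c = x` whose coordinates
have poles of order at most `d` at the missing points (`UniformOver`).

**(B)** If the orders of the poles of all morphisms `f : C → X` are bounded in terms of
`2 g - 2 + s` only, where `g` is the genus of `C` and `s` is the number of missing points
(`BoundedOver`), then the number of the morphisms with `f c = x` is bounded in terms of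
`2 g - 2 + s` only, uniformly in `C`, `c` and `x` (`PointedOver`).

**(C)** Condition (3) of the problem (`Pointed`) holds for `X` if and only if all morphisms from
the affine line to `X` are constant and, for all pointed curves and all `x`, the orders of the poles
of the morphisms `f : C → X` with `f c = x` are bounded (`PointedBounded`).

**(D)** Over the complex numbers, condition (1) (`Brody`) and condition (2) (`AllLogGeneral`) each
imply that all morphisms from the affine line to `X` are constant, hence the uniform finiteness in
(A) and that condition (3) holds if and only if the orders of the poles are bounded.

The definitions are in `Pool/Agent/L5helper25/AB/Cur.lean`, `Pool/Agent/L5helper25/AB/Gen.lean`,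
`Pool/Agent/L5helper25/AB/Unc.lean`, `Pool/Agent/L5helper25/AB/Hyp.lean` and
`Pool/Agent/L5helper25/AB/Lgt.lean`.

Proof of (A) (a form of bend and break for affine varieties in which the broken curve is an affine
line). The functions on `C` with poles of order at most `d` form a vector space of dimension at most
`d s + 1`, and they are determined by the first `d s + 1` coefficients of their expansions in a local
parameter `t` at `c`, whatever the genus. If the number of the pointed morphisms is not bounded, then
a quotient of the product of the fields gives one family of power series, over one algebraically
closed field, in which infinitely many members with the same constant term are on `X`. Then by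
elimination theory there is a member over a valued field `L` whose constant term `x` is integral and
whose coefficients are not all integral. After a scaling `t ↦ τ t` of the parameter, with `τ` in the
maximal ideal, all coefficients are integral, at least one of positive degree is a unit, and
almost all of them are in the maximal ideal; so the reduction is a polynomial map from the affine
line to `X` over the residue field, which is not constant. A specialization gives such a map over
`K`.

Proof of (B): the maps `t ↦ g (t ^ n)` for a nonconstant polynomial map `g` have unbounded poles,
so (A) applies.

Proof of (C): if there is a nonconstant polynomial map `g`, then the maps `t ↦ g (t ^ n)` from the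
affine line with the point `0` are infinitely many pointed morphisms.

(D) For (2) one uses that the closure of the image of an affine line is a curve without log general
type (Riemann-Hurwitz).

Related earlier work: Mori's bend and break; Urata's theorem and its logarithmic version for
hyperbolically embeddable varieties (Javanpykar, Levin); Keel, McKernan (affine lines in log
surfaces).
-/

set_option autoImplicit false
set_option linter.overlappingInstances false

namespace Pool.Agent.Results.MP_dc0411_ag.AffineVarieties

open Pool.Agent.L5helper25.AB (Mor SendsTo PolesLE NoLine Pointed PointedBounded UniformOver
  BoundedOver PointedOver Brody AllLogGeneral uniform_all geom_of_noline noline_of_bounded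
  pointed_of_bounded pointed_iff noline_of_brody noline_of_lgt)

theorem result :
    (∀ (K : Type) [Field K] [IsAlgClosed K] [CharZero K] (N : ℕ)
      (Φ : Set (MvPolynomial (Fin N) K)),
      (NoLine Φ → UniformOver Φ) ∧ (BoundedOver Φ → NoLine Φ ∧ PointedOver Φ) ∧
        (Pointed Φ ↔ NoLine Φ ∧ PointedBounded Φ)) ∧
    ∀ (N : ℕ) (Φ : Set (MvPolynomial (Fin N) ℂ)), Brody Φ ∨ AllLogGeneral Φ →
      NoLine Φ ∧ UniformOver Φ ∧ (Pointed Φ ↔ PointedBounded Φ) := by
  refine ⟨fun K _ _ _ N Φ => ⟨fun h => uniform_all (geom_of_noline h), fun h => ⟨?_,
    pointed_of_bounded h⟩, pointed_iff⟩, fun N Φ h => ?_⟩
  · obtain ⟨d, hd⟩ := h 0
    have hb : Pool.Agent.L5helper25.AB.base K Φ = Φ := by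
      have h1 : (fun p : MvPolynomial (Fin N) K => MvPolynomial.map (algebraMap K K) p) = id := by
        funext p
        rw [Algebra.algebraMap_self, MvPolynomial.map_id]
        rfl
      unfold Pool.Agent.L5helper25.AB.base
      rw [h1, Set.image_id]
    refine noline_of_bounded d fun E _ _ _ S hS f hf => hd K E S (by exact_mod_cast hS) f ?_
    rw [hb]
    exact hf
  · have hno : NoLine Φ := h.elim noline_of_brody noline_of_lgt
    exact ⟨hno, uniform_all (geom_of_noline hno), pointed_iff.trans (and_iff_right hno)⟩

end Pool.Agent.Results.MP_dc0411_ag.AffineVarieties
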