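import Pool.Agent.L5helper25.AB.Cor

/-!
# MP_dc0411_ag, Q1: conditions (2) and (3) for affine varieties with finite correspondences to generic
pairs

Let `K` be an algebraically closed field of characteristic `0`, for instance the field of complex
numbers, and let `k` be a subfield of `K`. A *generic affine pair* `X` over `K` (`GenericPair k K`,
in `Pool/Agent/N111/GJ/Def.lean`) defines the affine variety `U`, the complement of the hypersurfaces
`F b = 0`, `b ∉ C`, in the intersection of a closed subset `V` of a projective space, defined over the
algebraic closure of `k` in `K` and of dimension at most `m`, and of the hypersurfaces `F c = 0`,
`c ∈ C`, where the ratios of the coefficients of the forms `F a` over `K`, of degrees `d a`, to one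
of them are, for all `a` together, algebraically independent over `k`. Let `X.size` be the sum of all
the numbers `d a` and of the number of elements of `C`. For instance, `U` is the complement of a
generic hypersurface of degree `X.size` in projective space of dimension `m`.

Let `M` be an affine variety over `K`, with function field `L` and coordinates `u`. A *finite
correspondence* `M ← W → U` (`IsCorr X u x`, in `Pool/Agent/N111/GJ/Stmt.lean`) is given by a generic
pair `X`, a finite extension `L'` of `L`, and a point `x` of `U` with coordinates in `L'` such that
`W → M` is finite, where `W` is the closure of the graph in the product of `M` and `U`: the values at
`x` of the functions `x ^ I / F b` on `U` are integral over the ring of functions on `M`.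
`FibresLE X u x r`: the fibres of `W → M` have at most `r` points. `QuasiFinite X u x`: the fibres of
`W → U` are finite. `GenericallyFiniteOn X u x z`: over the closed subvariety `Z` of `M` with generic
point `z`, some component of `W` is generically finite over its image in `U`. We suppose

`ManyCorrespondences`: for every closed subvariety `Z` of `M` of positive dimension there is a finite
correspondence to a generic pair with `2 m + 2 r ≤ X.size + 1` which is generically finite on `Z`.

By (I) this holds if there is a quasi-finite one (`HasQuasiFinite`). For instance, `M` can be the quotient of an affine
variety `W`, quasi-finite over `U`, by a finite group of order at most `r`, such as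
`(P^n ∖ ⋃ g D) / G`, where `D` is a generic hypersurface of degree at least `2 n + 2 r - 1` and `G` is
a finite group of `r` automorphisms of `P^n`; or the image of such a `W` under a finite morphism with
fibres of at most `r` points; or a closed subvariety of one of these varieties.

Then (II), (III), (IV) hold:

* (II) (condition (2) of the problem, `AllLogGeneral`): all closed subvarieties of `M` of positive dimension are of
  log general type;
* (III) (`LinearDegrees`) the degrees of the morphisms `f` from smooth curves of genus `g` with `s` missing points to
  `M` are at most `A max (2 g - 2 + s) 0`, for some constant `A`;
* (IV) (condition (3), uniformly, `UniformPointed`): for all `B` there is a number `n` such that for all smooth curves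
  `Γ` over `K` with `2 g - 2 + s ≤ B`, all points `c` of `Γ` and all `x` there are at most `n`
  morphisms `Γ → M` which send `c` to `x`.

(II) and (III) follow from theorems of the starting library; they are stated because together with
(IV) they say that the conditions (2) and (3) of the problem both hold. (IV) follows from (III) by the
companion file `AffineVarieties`: there are no affine lines on `M`, and morphisms of bounded degree to
an affine variety without affine lines are uniformly finite in number if the value at one point is
prescribed.

`IsSub K u z w`: `z` is the generic point of a closed subvariety, of dimension `w`, of `M`. `Mor`,
`SendsTo` (`Pool/Agent/L5helper25/AB/Cur.lean`): the morphisms from the curve with function field `E`,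
without the points in the finite set `S`, and the value at a point. `pht K (1, f)`: the degree of `f`,
i.e. of the pullback of `O(1)` to the smooth projective curve. `canDeg K E = 2 g - 2`.
-/

set_option autoImplicit false
set_option linter.overlappingInstances false

namespace Pool.Agent.Results.MP_dc0411_ag.FiniteCorrespondences

open Pool.Agent.N111.GJ.FC (AllLogGeneral)
open Pool.Agent.L5helper25.AB (HasQuasiFinite ManyCorrespondences LinearDegrees UniformPointed
  many_of_quasi many_of_many lgt_of_many cor_deg cor_pointed)

theorem result {k K : Type} [Field k] [Field K] [IsAlgClosed K] [CharZero K] [Algebra k K]
    {L : Type} [Field L] [Algebra K L] {N : ℕ} (u : Fin N → L) :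
    (HasQuasiFinite k K u → ManyCorrespondences k K u) ∧
    (ManyCorrespondences k K u → AllLogGeneral K u ∧ LinearDegrees K u ∧ UniformPointed K u) :=
  ⟨many_of_quasi, fun h => ⟨lgt_of_many (many_of_many h), cor_deg (many_of_many h),
    cor_pointed (many_of_many h)⟩⟩

end Pool.Agent.Results.MP_dc0411_ag.FiniteCorrespondences
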