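import Pool.Agent.L5helper25.AB.Pair

/-!
# MP_dc0411_ag, Q1: conditions (2) and (3) for the complements of generic hypersurfaces

Let `k` be an algebraically closed field of characteristic `0`, and let `F_a`, for `a` in a finite
set `A`, be forms of degrees `d_a > 0` in `n + 1` variables over `k` whose coefficients are, for all
`a` together, algebraically independent over a field `k0` contained in `k` (for instance `k0 = ℚ`
and `k = ℂ`). Let `C` be a proper subset of `A`, and let `X` be the complement of the hypersurfaces
`F_b = 0`, `b ∉ C`, in the complete intersection `F_c = 0`, `c ∈ C`, in projective space of dimension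
`n` (for `C` empty, in projective space). Suppose that `2 n + 1 ≤ ∑ d_a + |C|` and
`3 n + 3 ≤ 2 ∑ d_a + |C|`; if `X` has positive dimension, that is `|C| < n`, then the second
condition follows from the first. For example, `X` is the complement of a generic hypersurface of
degree at least `2 n + 1` in projective space of dimension `n`. Then both (2) and (3) of the problem
hold for `X`, and the number of the pointed morphisms is bounded uniformly:

**(1)** For all `M` there is a number `N`, which depends only on `M`, `n`, the degrees `d_a` and `C`,
such that for all these `X`, over any algebraically closed field of characteristic zero, all smooth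
curves `Γ` of genus `g` with `s` missing points such that `2 g - 2 + s ≤ M`, all points `c` of `Γ`
and all points `x` of `X`, there are at most `N` morphisms `Γ → X` with `c ↦ x`.

**(2)** All closed subvarieties of `X` of positive dimension are of log general type (this is in the
starting file `MP_70ba79_ag.GenericPairDegrees`).

A morphism from the curve with function field `L`, without the points in the finite set `S`, is given
by a point of projective space over `L`, with homogeneous coordinates `f`: `MapU F d C S f` says
that `F_c (f) = 0` for `c` in `C`, and that for `b` not in `C` the form `F_b (f)` is not zero and its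
order at each point of the curve is `d_b` times the minimum of the orders of the coordinates, that
is, the image of the point is not on `F_b = 0`. `SendsP c f a` says that the value at the place `c`
of the curve is the point with homogeneous coordinates `a`. `canDeg k L` is `2 g - 2`.

Proof of (1). The starting file bounds the degrees of the morphisms by a constant times
`max (2 g - 2 + s) 0`. `X` is affine: for `G = ∏ F_b` of degree `δ` it is embedded by the functions
`x_{j_1} ⋯ x_{j_δ} / G`. So by the results of the companion file `AffineVarieties` the number of the
pointed morphisms is bounded. To get bounds that do not depend on `X`, this is applied over the field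
of rational functions in the coefficients of the forms, which is contained in `k`: the bound for
affine varieties without affine lines holds over all algebraically closed extensions at once.
-/

set_option autoImplicit false
set_option linter.overlappingInstances false

namespace Pool.Agent.Results.MP_dc0411_ag.GenericPairs

open MvPolynomial FF Pool.Agent.W603.LV Pool.Agent.W603.PV Pool.Agent.W602.GT
  Pool.Agent.TH145.MG LinearAlgebra.Projectivization
open Pool.Agent.Y741 (MapU generic_degrees)
open Pool.Agent.L5helper25.AB (SendsP pair_pointed)

theorem result {n : ℕ} (hn : 1 ≤ n) {A : Type} [Fintype A] [DecidableEq A] {d : A → ℕ}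
    (hd0 : ∀ a, 0 < d a)
    -- the equations are `F c = 0` for `c ∈ C`, and the other forms give the boundary
    (C : Finset A) (hC : C ≠ Finset.univ) (hd : 2 * n + 1 ≤ ∑ a, d a + C.card)
    -- this is automatic for `C.card < n`
    (hd' : 3 * n + 3 ≤ 2 * ∑ a, d a + C.card) :
    -- (1) pointed morphisms
    (∀ M : ℕ, ∃ N : ℕ, ∀ (k0 k : Type) [Field k0] [Field k] [Algebra k0 k] [IsAlgClosed k]
      [CharZero k] (F : A → MvPolynomial (Fin (n + 1)) k), (∀ a, (F a).IsHomogeneous (d a)) →
      (AlgebraicIndependent k0 fun p : (a : A) × {I : Fin (n + 1) →₀ ℕ // I.degree = d a} =>
        (F p.1).coeff p.2.1) →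
      ∀ (L : Type) [Field L] [Algebra k L] [IsFF k L] (S : Finset (Place k L)) (c : Place k L)
        (a : Fin (n + 1) → k), canDeg k L + S.card ≤ M → c ∉ S → a ≠ 0 →
        {Q : ℙ L (Fin (n + 1) → L) | MapU F d C S Q.rep ∧ SendsP c Q.rep a}.encard ≤ N) ∧
    -- (2) all subvarieties of positive dimension are of log general type
    ∀ (k0 k : Type) [Field k0] [Field k] [Algebra k0 k] [IsAlgClosed k] [CharZero k]
      (F : A → MvPolynomial (Fin (n + 1)) k), (∀ a, (F a).IsHomogeneous (d a)) →
      (AlgebraicIndependent k0 fun p : (a : A) × {I : Fin (n + 1) →₀ ℕ // I.degree = d a} =>
        (F p.1).coeff p.2.1) →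
      ∀ (K : Type) [Field K] [Algebra k K] (w : ℕ) (y : Fin (n + 1) → K), 0 < w →
        Algebra.trdeg k K = w → y ≠ 0 → Algebra.IsAlgebraic (coords k y) K →
        (∀ c ∈ C, aeval y (F c) = 0) → (∀ b, b ∉ C → aeval y (F b) ≠ 0) →
        LogGeneralType k K w fun Q : Place k K =>
          ∃ b, b ∉ C ∧ d b * pord Q y < Q.ord (aeval y (F b)) := by
  refine ⟨fun M => pair_pointed hn hd0 C hC hd' hd M, ?_⟩
  obtain ⟨B, hB⟩ := generic_degrees hn hd0 C hC hd'
  intro k0 k _ _ _ _ _ F hF hgen K _ _ w y hw htr hy0 hy hyc hyb
  exact ((hB k0 k F hF hgen).2.2 K w y hw (by omega) htr hy0 hy hyc hyb).1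

end Pool.Agent.Results.MP_dc0411_ag.GenericPairs
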