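import Pool.Agent.L5helper13.LV.Hol

/-!
MP_dc0411_ag, Q1: the first two notions of hyperbolicity together do not imply the third one.

For every `n = m + 2 ≥ 2` the smooth quasi-affine variety

`X = {P² ≠ 1} ∩ {P ≠ 0 or Q ≠ 0} ⊂ 𝔸 ^ n`, `P = x_0 ∏_{i ≥ 1} x_i (x_i - x_0)`, `Q = ∏_i (x_i² - 1)`,

is Brody hyperbolic, all its closed subvarieties of positive dimension are of log general type, and
infinitely many maps from a curve to `X` have the same value at a point of the curve.

The definitions are those of the starting files `Pool/Agent/N111/QC/QP.lean` and
`Pool/Agent/N111/QC/Ptd.lean`, for varieties in `ℙ ^ 0 × 𝔸 ^ n` given by equations `F` (here there are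
none) and by functions `H`, some of which has to be nonzero:

* `Brody F H`: condition (1), every holomorphic map from `ℂ` to the variety is constant;
* `AllLG ℂ F H`: condition (2), all closed subvarieties of positive dimension are of log general
  type (`LogGeneralType`, `Pool/Agent/W602/GT/Defs.lean`). A closed subvariety with function field
  `E` is given by its generic point; the places of `E` without centre on it are those for which the
  generic point does not extend to the valuation ring (`Extends`);
* `Pointed F H`: condition (3), for connected smooth quasi-projective curves `C`, given by a function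
  field of one variable and by a set of places with finite complement, for `c ∈ C` and points of the
  variety, only finitely many morphisms from `C` send `c` to the point.

Proof of (2). Let `Y` be a closed subvariety with function field `E`. If `P = 0` on `Y`, then the
`x_i ± 1` are units on `Y`, and the coordinates `f_j` of a transcendence basis give the forms
`ω = ∧ df_j / (f_j² - 1)` and `f_j ω`, which have logarithmic poles and are regular on `Y`. Otherwise
`E` is algebraic over the field generated by `P` and by the `g_i = 2 x_i / x_0 - 1`, since
`x_0 ^ (2n - 1)` is in it; if `P` is not constant, then it is part of a transcendence basis `f_j` of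
such functions. The forms `ω` and `f_j ω` as above are regular at the prime divisors on `Y` with
`P ≠ 0`, where the `g_i ± 1` and `P ± 1` are units, and also where `P = 0`: the product of the
`df_j / (f_j² - 1)`, `f_j ≠ P`, is a sum of wedge products of logarithmic forms, its wedge product
with `dP / P` has at most a simple pole, and `P` vanishes.
-/

set_option autoImplicit false

namespace Pool.Agent.Results.MP_dc0411_ag.ThirdConditionIndependent

open MvPolynomial
open Pool.Agent.N111.QC (AllLG Brody Pointed)

/-- The coordinates `x_0, …, x_(m + 1)` of the affine space. -/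
noncomputable def x (m : ℕ) (i : Fin (m + 2)) : MvPolynomial (Fin (0 + 1) ⊕ Fin (m + 2)) ℂ :=
  X (Sum.inr i)

/-- `P = x_0 ∏ x_i (x_i - x_0)`, the product over `i = 1, …, m + 1`. -/
noncomputable def P (m : ℕ) : MvPolynomial (Fin (0 + 1) ⊕ Fin (m + 2)) ℂ :=
  x m 0 * ∏ i : Fin (m + 1), (x m i.succ * (x m i.succ - x m 0))

/-- `Q = ∏ (x_i ^ 2 - 1)`, the product over `i = 0, …, m + 1`. -/
noncomputable def Q (m : ℕ) : MvPolynomial (Fin (0 + 1) ⊕ Fin (m + 2)) ℂ :=
  ∏ i : Fin (m + 2), (x m i ^ 2 - 1)

/-- There are no equations. -/
noncomputable def F (m : ℕ) : Fin 0 → MvPolynomial (Fin (0 + 1) ⊕ Fin (m + 2)) ℂ := ![]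

/-- The variety `X` of dimension `m + 2`: the points of the affine space where one of the functions
`(P ^ 2 - 1) P`, `(P ^ 2 - 1) Q` is not zero. -/
noncomputable def H (m : ℕ) : Fin 2 → MvPolynomial (Fin (0 + 1) ⊕ Fin (m + 2)) ℂ :=
  ![(P m ^ 2 - 1) * P m, (P m ^ 2 - 1) * Q m]

/-- For every dimension `m + 2 ≥ 2`, the smooth quasi-affine variety `X` satisfies the conditions (1)
and (2) of the problem, and it does not satisfy (3): there are a connected smooth quasi-projective
curve `C`, a point `c` of `C` and a point of `X` to which infinitely many morphisms `C → X` send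
`c`. -/
theorem result (m : ℕ) : Brody (F m) (H m) ∧ AllLG ℂ (F m) (H m) ∧ ¬ Pointed (F m) (H m) := by
  have hH : H m = Pool.Agent.L5helper13.LV.exH (m + 1) := by
    funext j
    rfl
  have hF : F m = Pool.Agent.L5helper13.LV.exF (m + 1) := rfl
  rw [hH, hF]
  exact ⟨Pool.Agent.L5helper13.LV.brody _, Pool.Agent.L5helper13.LV.allLG _,
    Pool.Agent.L5helper13.LV.not_pointed _⟩

end Pool.Agent.Results.MP_dc0411_ag.ThirdConditionIndependent
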